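import Mathlib

set_option autoImplicit false

open Finset

namespace Pool.Agent.Results.MP_f0eba7_co.QOne

/-- Proportionally `k`-choosable (colours are natural numbers): every `k`-assignment `L` has a
proper `L`-colouring in which each colour `c` of the palette is used `⌊η(c)/k⌋` or `⌈η(c)/k⌉`
times. -/
def PropChoosable {V : Type} [Fintype V] (G : SimpleGraph V) (k : ℕ) : Prop :=
  ∀ L : V → Finset ℕ, (∀ v, #(L v) = k) → ∃ f : V → ℕ, (∀ v, f v ∈ L v) ∧
    (∀ u v, G.Adj u v → f u ≠ f v) ∧ ∀ c, (∃ v, c ∈ L v) →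
      (#{v | f v = c} : ℤ) = ⌊(#{v | c ∈ L v} : ℚ) / k⌋ ∨
      (#{v | f v = c} : ℤ) = ⌈(#{v | c ∈ L v} : ℚ) / k⌉

/-- The proportional choice number. -/
noncomputable def chiPC {V : Type} [Fintype V] (G : SimpleGraph V) : ℕ := sInf {k | PropChoosable G k}

/-- Condition (H). -/
def H {t : ℕ} (n : Fin t → ℕ) : Prop := (∀ i, Even (n i)) ∧ ∀ i, n i ≤ ∑ j, n j / 2

/-- The complete multipartite graph with parts of sizes `n i`. -/
abbrev K {t : ℕ} (n : Fin t → ℕ) : SimpleGraph (Σ i, Fin (n i)) :=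
  SimpleGraph.completeMultipartiteGraph fun i => Fin (n i)

abbrev n0 : Fin 2 → ℕ := ![2, 6]

def L0 (v : Σ i, Fin (n0 i)) : Finset ℕ :=
  if v.1 = 0 then {0, 1, 2, 6} else if v.2.1 < 2 then {1, 2, 3, 4} else
    if v.2.1 < 4 then {1, 2, 3, 5} else {1, 2, 4, 5}

lemma bad : ¬ PropChoosable (K n0) 4 := fun h => by
  obtain ⟨f, h1, h2, h3⟩ := h L0 (by decide)
  let a : Fin 2 → Σ i, Fin (n0 i) := fun j => ⟨0, j⟩
  let b : Fin 6 → Σ i, Fin (n0 i) := fun j => ⟨1, j⟩
  have cnt : ∀ c, #{v | f v = c} = #{j | f (a j) = c} + #{j | f (b j) = c} := fun c => by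
    simp only [card_filter, Fintype.sum_sigma, Fin.sum_univ_two]; rfl
  have e : ∀ c m : ℕ, #{v | c ∈ L0 v} = 4 * m → (∃ v, c ∈ L0 v) →
      #{j | f (a j) = c} + #{j | f (b j) = c} = m := fun c m hm hc => by
    have := h3 c hc
    rw [hm, cnt] at this
    simp only [Nat.cast_mul, Nat.cast_ofNat, ne_eq, OfNat.ofNat_ne_zero, not_false_eq_true,
      mul_div_cancel_left₀, Int.floor_natCast, Int.ceil_natCast, or_self] at this
    exact_mod_cast this
  have e1 := e 1 2 (by decide) (by decide)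
  have e2 := e 2 2 (by decide) (by decide)
  have e3 := e 3 1 (by decide) (by decide)
  have e4 := e 4 1 (by decide) (by decide)
  have e5 := e 5 1 (by decide) (by decide)
  have tot : #{j | f (b j) = 1} + #{j | f (b j) = 2} + #{j | f (b j) = 3} + #{j | f (b j) = 4} +
      #{j | f (b j) = 5} = 6 := by
    simp only [card_filter, ← sum_add_distrib]
    rw [sum_congr rfl fun j _ => (?_ : _ = 1)]
    · simp
    · have := (by decide : ∀ j : Fin 6, L0 ⟨1, j⟩ ⊆ {1, 2, 3, 4, 5}) j (h1 (b j))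
      simp only [mem_insert, mem_singleton] at this
      rcases this with e | e | e | e | e <;> simp [e]
  have sep : ∀ c, #{j | f (a j) = c} = 0 ∨ #{j | f (b j) = c} = 0 := fun c => by
    by_contra! d
    obtain ⟨i, hi⟩ := card_ne_zero.1 d.1
    obtain ⟨j, hj⟩ := card_ne_zero.1 d.2
    exact h2 (a i) (b j) (by simp [a, b]) ((mem_filter.1 hi).2.trans (mem_filter.1 hj).2.symm)
  have z : ∀ c ∈ ({3, 4, 5} : Finset ℕ), #{j | f (a j) = c} = 0 := fun c hc =>
    card_eq_zero.2 (filter_eq_empty_iff.2 fun j _ e =>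
      (by decide : ∀ j : Fin 2, ∀ c ∈ ({3, 4, 5} : Finset ℕ), c ∉ L0 ⟨0, j⟩) j c hc (e ▸ h1 (a j)))
  have := z 3 (by simp); have := z 4 (by simp); have := z 5 (by simp)
  have := sep 1; have := sep 2
  omega

theorem result : ∃ (t : ℕ) (n : Fin t → ℕ), 2 ≤ t ∧ (∀ i, 1 ≤ n i) ∧ ¬ H n ∧
    ¬ PropChoosable (K n) (∑ i, (n i + 1) / 2) ∧ chiPC (K n) ≠ ∑ i, (n i + 1) / 2 := by
  refine ⟨2, n0, le_rfl, by decide, fun h => absurd (h.2 1) (by decide), bad, fun h => bad ?_⟩
  have := Nat.sInf_mem (s := {k | PropChoosable (K n0) k}) 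
    (Nat.nonempty_of_pos_sInf (lt_of_lt_of_eq (by decide) h.symm))
  rwa [show sInf {k | PropChoosable (K n0) k} = 4 from h] at this

end Pool.Agent.Results.MP_f0eba7_co.QOne
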